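import Pool.Agent.helper48.TH.Spec

/-!
# Project TH, second file: the geometric part for an ARBITRARY random set (helper48, idea of helper25)

`DEC` is all that is used about the random set `S β` (no number of rounds). Rules as in `Pool/Agent/helper48/TH/Spec.lean` (import this file instead).
-/

set_option autoImplicit false

namespace TP.TW

open DP MeasureTheory Finset

/-- decoupling with weight `w`, power `R`, constant `K` -/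
def DEC (S : (V → Bool) → Finset V) (w : V → ℝ) (R : ℕ) (K : ℝ) : Prop := ∀ (T U Λ : Finset V) (z : V) (E : Set (V → Bool)), CD E Λ →
  (∀ v ∈ insert z Λ, ∀ τ ∈ T, (v.1 - τ.1, v.2 - τ.2) ∈ U) →
  ∑ τ ∈ T, Pr (E ∩ {β | (z.1 - τ.1, z.2 - τ.2) ∈ S (fun v => β (v.1 + τ.1, v.2 + τ.2))}) ≤
    K * Pr E * (Real.log (1 / Pr E) + Real.log (#T + #Λ + 3)) ^ R * ∑ v ∈ U, w v

/-- a random set of bricks in `Ω` with decoupling -/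
def RS (S : (V → Bool) → Finset V) (Ω : Finset V) (w : V → ℝ) (R : ℕ) (K : ℝ) : Prop :=
  (∀ v ∈ Ω, br v = v) ∧ (∀ β, S β ⊆ Ω) ∧ (∃ Λ : Finset V, ∀ β β' : V → Bool, (∀ v ∈ Λ, β v = β' v) → S β = S β') ∧
  (∀ v, 0 ≤ w v) ∧ (∀ v ∉ Ω, w v = 0) ∧ 0 ≤ K ∧ DEC S w R K

/-- **PLR** (short-medium). `N = #U + 3`, `l = log N ≥ 1`. If `p ≥ 1/N²`: `log (1/p) + ℓ ≤ 2 (l + ℓ)`, term `≤ 2^R p (l + ℓ)^R`. If `0 < p < 1/N²`, `x = log (1/p) ≥ 0`: `p = exp (-x/2) exp (-x/2) ≤ (1/N) exp (-x/2)`, `(x + ℓ)^R ≤ (1 + x)^R (1 + ℓ)^R` and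
`(1 + x)^R exp (-x/2) ≤ C_R` (e.g. `(1 + x)^R ≤ R! 2^R exp ((1 + x)/2)`, `Real.pow_div_factorial_le_exp`), `1 + ℓ ≤ l + ℓ`; at most `N` terms. `p = 0`: the term is 0. -/
def PLR_stmt : Prop := ∀ R : ℕ, ∃ C : ℝ, 0 < C ∧ ∀ (U : Finset V) (p : V → ℝ) (ℓ : ℝ), 0 ≤ ℓ → (∀ z ∈ U, 0 ≤ p z ∧ p z ≤ 1) →
  ∑ z ∈ U, p z * (Real.log (1 / p z) + ℓ) ^ R ≤ C * (∑ z ∈ U, p z + 1) * (Real.log (#U + 3) + ℓ) ^ R

/-- **VSG** (medium-long, critical; three provers). uses: `MNO_stmt SHI_stmt SHP_stmt ZCH_stmt PLR_stmt`. `L` of ZCH. First `t ≥ max L 16` (`crs true`; `crs false` is the same): `s = t / 16`, `T` = the vectors `(2i, 2j)`, `0 ≤ i, j ≤ s`; core `R' = (a, a + 6t + 2s, d + 2s, d + 2t)` (for `crs false`: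
`(a + 2s, a + 2t, d, d + 6t + 2s)`), `Z` from ZCH for `R'`, `Λ = rf R'`, `p z = Pr {β | z ∈ Z β}`, `P` = the probability on the left. For `τ ∈ T`, `β τ v = β (v + τ)`: by SHP (the event depends on finitely many coins: `Λ` of RS and the bricks of the rectangle) and SHI
`P = Pr {β | crs (col β) k (til (shf τ (S (β τ)))) (rect + τ)}`, by MNO and the property of `Z` this is `≤ ∑_(z ∈ Λ) Pr ({β | z ∈ Z β} ∩ {β | z - τ ∈ S (β τ)})`. Sum over `τ ∈ T`, exchange, DEC with `E = {β | z ∈ Z β}` (`CD E Λ` by ZCH), `U` = the `v` with `a - t ≤ v.1 ≤ a + 6t + t`, `d - t ≤ v.2 ≤ d + 2t + t`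
(all `v - τ`, `v ∈ Λ`, `τ ∈ T` are there as `2 s + 1 ≤ t`; `z ∈ Λ`): `#T P ≤ ∑_(z ∈ Λ) K p z (log (1/p z) + log (#T + #Λ + 3))^R ∑_(v ∈ U) w v`; `∑_U w = ∑_(nr Ω) w` (`w = 0` outside `Ω`); PLR with `ℓ = log (#T + #Λ + 3)`, `∑ p z ≤ C`, `#T + #Λ + 3 ≤ 100 t²`, so the logs are `≤ 10 log (t + 2)`;
`#T = (s+1)² ≥ t²/256`. If `t < max L 16`: `P ≤ ∑_(v ∈ nr Ω) Pr {β | v ∈ S β}` (a crossing contains a site `u` of the rectangle with `br u ∈ S β`) and DEC with `T = {(0,0)}`, `U = {v}`, `Λ = ∅`, `E = univ`, `z = v` gives `Pr {β | v ∈ S β} ≤ K (log 4)^R w v`. -/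
def VSG_stmt : Prop := ∀ R : ℕ, ∃ C : ℝ, 0 < C ∧ ∀ (S : (V → Bool) → Finset V) (Ω : Finset V) (w : V → ℝ) (K : ℝ) (k : Bool) (t : ℕ) (a d : ℤ), 1 ≤ t → RS S Ω w R K →
  Pr {β | crs true (col β) k (til (S β)) a (a + 6 * t) d (d + 2 * t)} ≤
    C * K * Real.log (t + 2) ^ R * (∑ v ∈ nr Ω a (a + 6 * t) d (d + 2 * t) t, w v) / (t : ℝ) ^ 2 ∧
  Pr {β | crs false (col β) k (til (S β)) a (a + 2 * t) d (d + 6 * t)} ≤
    C * K * Real.log (t + 2) ^ R * (∑ v ∈ nr Ω a (a + 2 * t) d (d + 6 * t) t, w v) / (t : ℝ) ^ 2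

/-- **SPG** (short-medium). uses: `ANR_stmt VSG_stmt`. The four rectangles of ANR (as SPR), union bound; `nr Ω .. ⊆` the elements with `sd x v ≤ 4 t`, `w ≥ 0`. -/
def SPG_stmt : Prop := ∀ R : ℕ, ∃ C : ℝ, 0 < C ∧ ∀ (S : (V → Bool) → Finset V) (Ω : Finset V) (w : V → ℝ) (K : ℝ) (k : Bool) (x : V) (t : ℕ), 1 ≤ t → RS S Ω w R K →
  Pr {β | SR (col β) k (S β) x t} ≤ C * K * Real.log (t + 2) ^ R * (∑ v ∈ Ω with sd x v ≤ 4 * t, w v) / (t : ℝ) ^ 2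

/-- **SUG** (medium, critical; two provers). uses: `CV_stmt SPG_stmt`. As SUM (`Pool/Agent/helper96/TWO/SUM.lean`), CV for `S β`. First alternative of CV: probability `≤ ∑_(v ∈ Ω, sd v₀ v ≤ 200) Pr {β | v ∈ S β}`, `Pr {β | v ∈ S β} ≤ K (log 4)^R w v` (DEC with `T = {(0,0)}`, `U = {v}`, `Λ = ∅`, `E = univ`), sum over `v₀`:
`≤ 401² K (log 4)^R ∑_Ω w`. Second: for fixed `s, k, p, q` the sum over `v₀` is `≤ (8 t + 1)² C K log (t + 2)^R ∑_Ω w / t² ≤ 81 C K log (t+2)^R ∑_Ω w`, `t = 2 ^ s ≤ n`, `log (t + 2) ≤ log (2 n) ≤ 2 log n`; number of scales `≤ 4 log n`. -/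
def SUG_stmt : Prop := ∀ R : ℕ, ∃ C : ℝ, 0 < C ∧ ∀ (n : ℕ) (S : (V → Bool) → Finset V) (Ω : Finset V) (w : V → ℝ) (K : ℝ), 2 ≤ n → Ω ⊆ (univ : Finset (Fin n × Fin n)).image phi → RS S Ω w R K →
  ∑ v₀ ∈ (univ : Finset (Fin n × Fin n)).image phi, Pr {β | BAD (col β) (S β) v₀} ≤ C * K * Real.log n ^ (R + 1) * ∑ v ∈ Ω, w v

/-- **D3** (medium, critical). Three rounds. uses: `SHP_stmt INP_stmt`. `F τ = {β | z - τ ∈ B (β τ)}`, `β τ v = β (v + τ)`: `CD (F τ) (A + τ)` (`v + τ`, `v ∈ A`; a subset of those). `Pr (E ∩ {z - τ ∈ A ∪ B (β τ)}) ≤ [z - τ ∈ A] Pr E + Pr (E ∩ F τ)`. First sum `≤ #(A ∩ U) Pr E`. INP with `A τ = A.image (· + τ)`, `M = #(A ∩ U)`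
(for `v ∈ Λ` the `τ ∈ T` with `v ∈ A + τ` are injected in `A ∩ U` by `τ ↦ v - τ`): second sum `≤ Pr E (M log (1/Pr E)) + 2 Pr E ∑_τ Pr (F τ)`, `Pr (F τ) = Pr {β | z - τ ∈ B β}` (SHP, depends on the coins in `A`), `∑_τ ≤ ∑_(v ∈ U) Pr {v ∈ B β}` (`τ ↦ z - τ` injective). `log (#T + #Λ + 3) ≥ log 3 ≥ 1`, `log (1/Pr E) ≥ 0`.
The finitely many coins in RS: `A`. -/
def D3_stmt : Prop := ∀ (A Ω : Finset V) (B : (V → Bool) → Finset V), Two A Ω B →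
  RS (fun β => A ∪ B β) (A ∪ Ω) (fun v => (if v ∈ A then 1 else 0) + Pr {β | v ∈ B β}) 1 2

/-- **SUX** (short). uses: `SUG_stmt D3_stmt`. SUG for `R = 1`, `K = 2`, D3; `∑_(v ∈ A ∪ Ω) w v = #A + ∑_(v ∈ Ω) Pr {v ∈ B β}` (`Pr {v ∈ B β} = 0` for `v ∉ Ω`), `log n² #A + log n² ∑ ..`. -/
def SUX_stmt : Prop := ∃ C : ℝ, 0 < C ∧ ∀ (n : ℕ) (A Ω : Finset V) (B : (V → Bool) → Finset V), 2 ≤ n → A ⊆ (univ : Finset (Fin n × Fin n)).image phi → Ω ⊆ (univ : Finset (Fin n × Fin n)).image phi → Two A Ω B →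
  ∑ v₀ ∈ (univ : Finset (Fin n × Fin n)).image phi, Pr {β | BAD (col β) (A ∪ B β) v₀} ≤
    C * Real.log n ^ 2 * (#A + ∑ v ∈ Ω, Pr {β | v ∈ B β})

end TP.TW
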