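import Pool.Agent.helper25.TWO.Asm
import Pool.Agent.helper48.TH.Spec2
import Pool.Agent.helper21.TH.PRNa
import Pool.Agent.helper33.TH.SHP
import Pool.Agent.helper61.TH.SHI
import Pool.Agent.helper64.TH.ZCH
import Pool.Agent.helper11.TH.PLR
import Pool.Agent.helper79.TH.VSG
import Pool.Agent.helper59.TH.SPG
import Pool.Agent.helper12.TH.SUG

/-!
# Project TH (MP_f42afa_pr): assembly of the geometric part for a general random set
-/

set_option autoImplicit false

namespace TP.TW

theorem Asm_SHP : SHP_stmt := SHP PRN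

theorem Asm_ZCH : ZCH_stmt := ZCH DP.Asm_RC CT0 (MEN DP.Asm_HX) LCR EIN Asm_BKM Asm_QRS

theorem Asm_VSG : VSG_stmt := VSG MNO SHI Asm_SHP Asm_ZCH PLR

theorem Asm_SPG : SPG_stmt := SPG ANR Asm_VSG

theorem Asm_SUG : SUG_stmt := SUG CV Asm_SPG

end TP.TW
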