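import Pool.Agent.helper48.TH.AsmG
import Pool.Agent.helper3.TH.LSU
import Pool.Agent.helper57.TH.SHE
import Pool.Agent.helper38.TH.YNG
import Pool.Agent.helper16.TH.CXE
import Pool.Agent.helper82.TH.INF
import Pool.Agent.helper83.TH.INP
import Pool.Agent.helper27.TH.PLG
import Pool.Agent.helper79.TH.VSA
import Pool.Agent.helper59.TH.SPA
import Pool.Agent.helper65.TH.SUA

/-!
# Project TH (MP_f42afa_pr): assembly for three rounds
-/

set_option autoImplicit false

namespace TP.TW

theorem Asm_INF : INF_stmt := INF (SHE LSU CXE) YNG CXE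

theorem Asm_INP : INP_stmt := INP Asm_INF PRN

theorem Asm_VSA : VSA_stmt := VSA MNO SHI Asm_SHP Asm_ZCH Asm_INP PLG

theorem Asm_SPA : SPA_stmt := SPA ANR Asm_VSA

theorem Asm_SUA : SUA_stmt := SUA CV Asm_SPA

end TP.TW
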