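import Pool.Agent.helper25.TW.Spec

/-!
# Project TH (MP_f42afa_pr): THREE-round algorithms for critical crossings (helper48)

THEOREM (`FN3`). There is `c > 0` such that for all `n ≥ 2` every three-round algorithm for the crossing of the `n × n` rhombus (a fixed set `A` is queried, then a set `B x` which depends on the
answers in `A`, then a set `C x` which depends on the answers in `A ∪ B x`; the answers decide the crossing) queries on average at least `c n² / (log n)²` sites.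

New step (`INF`, entropy decoupling): `E` an event of probability `p`, `F τ` (`τ ∈ T`) events which depend only on the coins in `A τ`, every coin relevant for `E` in at most `M` of the `A τ`:
`∑ P (E ∩ F τ) ≤ p M log (1/p) + 2 p ∑ P (F τ)`.  Then as in project TW: translate `A ∪ B β`, cut, sum over the scales.

RULES. Row `XXX`: file `Pool/Agent/<seat>/TH/XXX.lean`, `import Pool.Agent.helper48.TH.Spec`, `set_option autoImplicit false`, `namespace TP.TW`, `open DP MeasureTheory Finset`,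
`theorem XXX (h1 : YYY_stmt) ... : XXX_stmt` with any other `_stmt` of this file or of `Pool.Agent.helper25.TW.Spec` (all proved) as hypotheses (no circles). Auxiliary lemmas private or prefixed `XXX_`.
No straight double quotes, no convert / congr!. Land, note = DONE + path, one line to helper48. A doubt about a statement: one line at once.
-/

set_option autoImplicit false

namespace TP.TW

open DP MeasureTheory Finset

/-! ## Part 1: entropy on the cube -/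

/-- `x log x` -/
noncomputable def ph (x : ℝ) : ℝ := x * Real.log x

/-- two point entropy `u log u + v log v - (u + v) log ((u + v) / 2)` -/
noncomputable def e2 (u v : ℝ) : ℝ := ph u + ph v - (u + v) * Real.log ((u + v) / 2)

/-- average over the cube -/
noncomputable def av {n : ℕ} (f : (Fin n → Bool) → ℝ) : ℝ := (∑ x, f x) / 2 ^ n

/-- entropy -/
noncomputable def Et {n : ℕ} (f : (Fin n → Bool) → ℝ) : ℝ := av (fun x => ph (f x)) - ph (av f)

/-- average over the coordinates outside `A` -/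
noncomputable def cex {n : ℕ} (A : Finset (Fin n)) (f : (Fin n → Bool) → ℝ) (x : Fin n → Bool) : ℝ :=
  (∑ y with ∀ i ∈ A, y i = x i, f y) / 2 ^ (n - #A)

/-- **LSU** (short). `0 ≤ e2 u v` for `u, v ≥ 0` and `e2` is subadditive. Write `e2 u v = u log (2u/(u+v)) + v log (2v/(u+v))`. With `U = ∑ u j`, `W = ∑ v j`, `α = 2U/(U+W)`, `γ = 2W/(U+W)`: for `u, s > 0` and `α > 0`, `u log (2u/s) ≥ u log α + u - α s / 2`
(from `log y ≥ 1 - 1/y`, `y = 2u/(α s)`), also for `u = 0`; sum over `j` (`s = u j + v j`): the terms `U - α (U+W)/2 = 0` vanish. Cases `U = 0` or `W = 0`: then all `u j = 0` (`ph 0 = 0`) and the claim is `W log 2 ≤ ∑ v j log 2`. Nonnegativity: the same with one term and `α = γ = 1`. -/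
def LSU_stmt : Prop := (∀ u v : ℝ, 0 ≤ u → 0 ≤ v → 0 ≤ e2 u v) ∧ ∀ (α : Type) (s : Finset α) (u v : α → ℝ), (∀ j ∈ s, 0 ≤ u j) → (∀ j ∈ s, 0 ≤ v j) →
  e2 (∑ j ∈ s, u j) (∑ j ∈ s, v j) ≤ ∑ j ∈ s, e2 (u j) (v j)

/-- **SHE** (medium, critical). Shearer for the entropy. uses: `LSU_stmt`. Induction on `n` (`n = 0`: `Et f = 0`, `d` empty). Step: for `f` on `Fin (n+1) → Bool` put `f_b y = f (Fin.cons b y)`, `g = (f_false + f_true)/2`, `d` for `g` by induction, `d 0 = av (fun y => e2 (f_false y) (f_true y)) / 2`,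
`d (i.succ)` = that of `g`. (1) `Et f = d 0 + Et g`: `av (ph f) = av ((ph f_false + ph f_true)/2)`, `ph (av f) = ph (av g)`, and `(ph u + ph v)/2 - ph ((u+v)/2) = e2 u v / 2`. (2) `A' = {i | i.succ ∈ A}`. If `0 ∉ A`: `cex A f (cons b y) = cex A' g y`, so
`Et (cex A f) = Et (cex A' g)`. If `0 ∈ A`: `cex A f (cons b y) = cex A' f_b y`, and as in (1) `Et (cex A f) = av (e2 (cex A' f_false) (cex A' f_true)) / 2 + Et (cex A' g)`, and `e2 (cex A' f_false y) (cex A' f_true y) ≤ cex A' (e2 f_false f_true) y` (LSU; `e2 (c u) (c v) = c e2 u v`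
for `c > 0`), the average of the right side is `av (e2 f_false f_true)` (each `z` has weight one: `av (cex A' h) = av h`). -/
def SHE_stmt : Prop := ∀ (n : ℕ) (f : (Fin n → Bool) → ℝ), (∀ x, 0 ≤ f x) → ∃ d : Fin n → ℝ, (∀ i, 0 ≤ d i) ∧ ∑ i, d i = Et f ∧
  ∀ A : Finset (Fin n), Et (cex A f) ≤ ∑ i ∈ A, d i

/-- **YNG** (short). Young: for `a ≥ 0`, `a b ≤ a log a - a + exp b` (`a = 0` clear; else `exp (b - log a) ≥ 1 + b - log a`). With `b = 1` on `F` and `0` elsewhere: sum, `av g = 1`, `ph 1 = 0`, `exp 1 - 1 ≤ 2`. -/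
def YNG_stmt : Prop := ∀ (n : ℕ) (g : (Fin n → Bool) → ℝ) (F : (Fin n → Bool) → Prop) [DecidablePred F], (∀ x, 0 ≤ g x) → av g = 1 →
  av (fun x => if F x then g x else 0) ≤ Et g + 2 * ((#{x | F x} : ℝ) / 2 ^ n)

/-- **CXE** (short-medium). The class of `x` modulo agreement on `A` has `2 ^ (n - #A)` elements (`Fintype.card` of the functions on the complement). (1), (2) clear. (3) exchange the sums (agreement on `A` is symmetric, `F` is constant on the classes). (4) if `f` depends only on `Λ`: the class for `A ∩ Λ` is mapped `2 ^ (#(A \ Λ))` to one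
onto the class for `A` (replace the coordinates in `A \ Λ` by those of `x`), which does not change `f`. -/
def CXE_stmt : Prop := ∀ (n : ℕ) (A : Finset (Fin n)) (f : (Fin n → Bool) → ℝ),
  ((∀ x, 0 ≤ f x) → ∀ x, 0 ≤ cex A f x) ∧ av (cex A f) = av f ∧
  (∀ (F : (Fin n → Bool) → Prop) [DecidablePred F], (∀ x y, (∀ i ∈ A, x i = y i) → (F x ↔ F y)) →
    av (fun x => if F x then f x else 0) = av (fun x => if F x then cex A f x else 0)) ∧
  ∀ Λ : Finset (Fin n), (∀ x y, (∀ i ∈ Λ, x i = y i) → f x = f y) → cex A f = cex (A ∩ Λ) f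

open Classical in
/-- **INF** (medium, critical). uses: `SHE_stmt YNG_stmt CXE_stmt`. `p = 0`: both sides 0. Otherwise `f x = if E x then 1/p else 0`, `av f = 1`, `Et f = log (1/p)` (`av (ph f) = p (1/p) log (1/p)`). `g τ = cex (A τ) f = cex (A τ ∩ Λ) f` (CXE). `#{E ∧ F τ}/2^n = p av (1_(F τ) f) = p av (1_(F τ) g τ)
≤ p (Et (g τ) + 2 #(F τ)/2^n)` (YNG) and `∑_τ Et (g τ) ≤ ∑_τ ∑_(i ∈ A τ ∩ Λ) d i ≤ M ∑ d i = M log (1/p)` (SHE). -/
def INF_stmt : Prop := ∀ (n : ℕ) (κ : Type) (T : Finset κ) (E : (Fin n → Bool) → Prop) (F : κ → (Fin n → Bool) → Prop) (Λ : Finset (Fin n)) (A : κ → Finset (Fin n)) (M : ℕ) (p : ℝ),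
  p = (#{x | E x} : ℝ) / 2 ^ n → (∀ x y, (∀ i ∈ Λ, x i = y i) → (E x ↔ E y)) → (∀ τ ∈ T, ∀ x y, (∀ i ∈ A τ, x i = y i) → (F τ x ↔ F τ y)) → (∀ i ∈ Λ, #{τ ∈ T | i ∈ A τ} ≤ M) →
  ∑ τ ∈ T, (#{x | E x ∧ F τ x} : ℝ) / 2 ^ n ≤ p * (M * Real.log (1 / p)) + 2 * p * ∑ τ ∈ T, (#{x | F τ x} : ℝ) / 2 ^ n

/-! ## Part 2: the coins -/

open Classical in
/-- **PRN** (short). As BR2 (`Pool/Agent/helper94/TWO/BR2.lean`) with an injection `ε : Fin N → V`. -/
def PRN_stmt : Prop := ∀ (N : ℕ) (ε : Fin N → V), Function.Injective ε → ∀ P : (Fin N → Bool) → Prop,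
  Pr {β : V → Bool | P (fun i => β (ε i))} = (#{x : Fin N → Bool | P x} : ℝ) / 2 ^ N

/-- `F` depends only on the coins in `Λ`. -/
def CD (F : Set (V → Bool)) (Λ : Finset V) : Prop := ∀ b b' : V → Bool, (∀ v ∈ Λ, b v = b' v) → (b ∈ F ↔ b' ∈ F)

/-- **SHP** (short-medium). uses: `PRN_stmt`. Enumerate `Λ` by `ε : Fin N → V`; both sides are `#{x | P x}/2^N` (`ε` and the translated `ε`), `P x` = (`x` extended by `false`) `∈ F`. -/
def SHP_stmt : Prop := ∀ (F : Set (V → Bool)) (Λ : Finset V), CD F Λ → ∀ i j : ℤ, Pr {β : V → Bool | (fun v => β (v.1 + i, v.2 + j)) ∈ F} = Pr F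

open Classical in
/-- **INP** (medium). uses: `INF_stmt PRN_stmt`. Enumerate `Ω = Λ ∪ ⋃ A τ` (`τ ∈ T`) by `ε : Fin N → V`, PRN for `E`, `F τ`, `E ∩ F τ` (each is `{β | P (β ∘ ε)}` with `P x` = (`x` extended by `false`) in the event), INF. -/
def INP_stmt : Prop := ∀ (κ : Type) (T : Finset κ) (E : Set (V → Bool)) (F : κ → Set (V → Bool)) (Λ : Finset V) (A : κ → Finset V) (M : ℕ),
  CD E Λ → (∀ τ ∈ T, CD (F τ) (A τ)) → (∀ v ∈ Λ, #{τ ∈ T | v ∈ A τ} ≤ M) →
  ∑ τ ∈ T, Pr (E ∩ F τ) ≤ Pr E * (M * Real.log (1 / Pr E)) + 2 * Pr E * ∑ τ ∈ T, Pr (F τ)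

/-- the bricks of a rectangle -/
noncomputable def rf (a b d e : ℤ) : Finset V := (Icc a b ×ˢ Icc d e).image br

/-- **ZCH** (medium, critical). The bricks of a minimal cut as a function of the coins. uses: `CT0_stmt MEN_stmt LCR_stmt EIN_stmt BKM_stmt QRS_stmt` and `DP.RC_stmt` (as hypothesis; see the file `Pool/Agent/helper27/TWO/DET.lean` for the argument). `C = 1/c₀`, `L` of QRS. For `β` let `K` be minimal with `cut o (col β) k a b d e K`
(exists by CT0) and `B` the brick set of such a cut, `Z₀ β = B.filter (· ∈ rf a b d e)`. `Z β = Z₀ β'` with `β' v = β v` if `v ∈ rf`, else `false`: `col β' = col β` on the rectangle, so `cut`, `crs`, `many` are the same for `β'`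
(everything happens in the rectangle) and `Z` depends only on the coins in `rf`. If `crs o (col β) k (til S) a b d e`, this crossing meets the set `W` of the cut (RC) in a site `w` of colour `k`, `br w ∈ B`, `br w ∈ S`, `br w ∈ rf`. Pointwise `#(Z β) ≤ K ≤ #{j < M | many .. (j+1)}` (MEN),
EIN with `s = rf`, `F z = {β | z ∈ Z β}`, `t = range M`, BKM, QRS, geometric series: exactly as in `VSP_core` (`Pool/Agent/helper72/TWO/VSP.lean`). -/
def ZCH_stmt : Prop := ∃ C : ℝ, 0 < C ∧ ∃ L : ℕ, 0 < L ∧ ∀ (o k : Bool) (a b d e : ℤ), a ≤ b → d ≤ e →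
  (o = true → (L : ℤ) ≤ e - d ∧ b - a ≤ 4 * (e - d)) → (o = false → (L : ℤ) ≤ b - a ∧ e - d ≤ 4 * (b - a)) →
  ∃ Z : (V → Bool) → Finset V, (∀ β, Z β ⊆ rf a b d e) ∧ (∀ z, CD {β | z ∈ Z β} (rf a b d e)) ∧
    (∀ (β : V → Bool) (S : Finset V), crs o (col β) k (til S) a b d e → ∃ z ∈ Z β, z ∈ S) ∧
    ∑ z ∈ rf a b d e, Pr {β | z ∈ Z β} ≤ C

/-- **PLG** (short). `N = #U + 3`: `p log (1/p) ≤ p log N + 1/N` (`x = p N`, `x log (1/x) ≤ 1`, as `log (1/x) ≤ 1/x`; `p = 0`: `Real.log (1/0) = 0`). Sum, `#U/N ≤ 1 ≤ log N` (`N ≥ 3`, `Real.exp_one_lt_d9`). -/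
def PLG_stmt : Prop := ∀ (U : Finset V) (p : V → ℝ), (∀ z ∈ U, 0 ≤ p z) → ∑ z ∈ U, p z * Real.log (1 / p z) ≤ (∑ z ∈ U, p z + 1) * Real.log (#U + 3)

/-- **SHI** (short-medium). Even translations, deterministic (compare `Pool/Agent/helper4/TWO/TRS.lean`): `col (β ∘ shift) v = col β (v + (2i, 2j))`, `br` commutes with even translations. -/
def SHI_stmt : Prop := ∀ (o k : Bool) (β : V → Bool) (S : Finset V) (a b d e i j : ℤ),
  crs o (col fun v => β (v.1 + 2 * i, v.2 + 2 * j)) k (til S) a b d e ↔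
    crs o (col β) k (til (shf (2 * i, 2 * j) S)) (a + 2 * i) (b + 2 * i) (d + 2 * j) (e + 2 * j)

/-- an adaptive set in two rounds: `A`, then `B β ⊆ Ω` which depends on the coins in `A`; all elements are left sites of bricks -/
def Two (A Ω : Finset V) (B : (V → Bool) → Finset V) : Prop :=
  (∀ v ∈ A, br v = v) ∧ (∀ v ∈ Ω, br v = v) ∧ (∀ β, B β ⊆ Ω) ∧ ∀ β β' : V → Bool, (∀ v ∈ A, β v = β' v) → B β = B β'

/-- the elements of `S` in the rectangle with margin `t` -/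
noncomputable def nr (S : Finset V) (a b d e : ℤ) (t : ℕ) : Finset V := S.filter fun v => a - t ≤ v.1 ∧ v.1 ≤ b + t ∧ d - t ≤ v.2 ∧ v.2 ≤ e + t

/-- the local weight of the adaptive set -/
noncomputable def wgt (A Ω : Finset V) (B : (V → Bool) → Finset V) (t : ℕ) : ℝ := #A * Real.log (t + 2) + ∑ v ∈ Ω, Pr {β | v ∈ B β}

/-- **VSA** (medium-long, critical; two provers). uses: `MNO_stmt SHI_stmt SHP_stmt ZCH_stmt INP_stmt PLG_stmt`. As VSP, for `A ∪ B β`. `L` of ZCH. First `t ≥ L` (`o = true`; `o = false` is the same): `s = t / 16`, `T` = the vectors `(2i, 2j)`, `0 ≤ i, j ≤ s`; core `R' = (a, a + 6t + 2s, d + 2s, d + 2t)` (for `o = false`: `(a + 2s, a + 2t, d, d + 6t + 2s)`), `Z` from ZCH for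
`R'`, `U = rf R'`, `p z = Pr (z ∈ Z)`, `P` = the probability on the left. For `τ = (2i, 2j) ∈ T`, `β τ v = β (v + τ)`: by SHP (the event depends on finitely many coins: `A` and the bricks of the rectangle) and SHI `P = Pr {β | crs (col β) k (til (shf τ (A ∪ B (β τ)))) (rect + τ)}`, by MNO and the property of `Z`
`≤ ∑_(z ∈ U) Pr {z ∈ Z β, z - τ ∈ A ∪ B (β τ)}`. Sum over `τ`: `#T P ≤ ∑_z ∑_τ [z - τ ∈ A] p z + ∑_z ∑_τ Pr ({z ∈ Z} ∩ F τ)`, `F τ = {β | z - τ ∈ B (β τ)}`, `CD (F τ) (A + τ)`. All `z - τ` are in `nr` (`2 s ≤ t/8`; if `z - τ` is not, the term is ... there is no such `z`: `z ∈ rf R'` has `a - 1 ≤ z.1`, etc.). First sum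
`≤ #(nr A) ∑ p z`. INP (`Λ = U`, `M = #(nr A)`: for `v ∈ U` the `τ` with `v - τ ∈ A` are at most `#(nr A)`): second sum `≤ #(nr A) ∑ p z log (1/p z) + 2 ∑ p z · ∑_τ Pr (F τ)`, `∑_τ Pr (F τ) = ∑_τ Pr {z - τ ∈ B β} ≤ ∑_(v ∈ nr Ω) Pr {v ∈ B β}` (SHP, injectivity). PLG, `#U + 3 ≤ 100 t² ≤ (t+2)^20`... so
`log (#U + 3) ≤ 20 log (t + 2)`; `#T = (s+1)² ≥ t²/256`. If `t < L`: `P ≤ #(nr A) + ∑_(nr Ω) Pr {v ∈ B β}` (a crossing meets some brick of `A ∪ B β` in `nr`), and `1 ≤ log (t + 2)`, `1 ≤ L²/t²`. -/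
def VSA_stmt : Prop := ∃ C : ℝ, 0 < C ∧ ∀ (k : Bool) (A Ω : Finset V) (B : (V → Bool) → Finset V) (t : ℕ) (a d : ℤ), 1 ≤ t → Two A Ω B →
  Pr {β | crs true (col β) k (til (A ∪ B β)) a (a + 6 * t) d (d + 2 * t)} ≤
    C * wgt (nr A a (a + 6 * t) d (d + 2 * t) t) (nr Ω a (a + 6 * t) d (d + 2 * t) t) B t / (t : ℝ) ^ 2 ∧
  Pr {β | crs false (col β) k (til (A ∪ B β)) a (a + 2 * t) d (d + 6 * t)} ≤
    C * wgt (nr A a (a + 2 * t) d (d + 6 * t) t) (nr Ω a (a + 2 * t) d (d + 6 * t) t) B t / (t : ℝ) ^ 2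

/-- **SPA** (short-medium). uses: `ANR_stmt VSA_stmt`. The four rectangles of ANR, union bound; `nr ⊆` the elements with `sd x v ≤ 4 t`; `wgt` is monotone in `A`, `Ω` (`log (t+2) ≥ 0`). -/
def SPA_stmt : Prop := ∃ C : ℝ, 0 < C ∧ ∀ (k : Bool) (A Ω : Finset V) (B : (V → Bool) → Finset V) (x : V) (t : ℕ), 1 ≤ t → Two A Ω B →
  Pr {β | SR (col β) k (A ∪ B β) x t} ≤ C * wgt (A.filter fun v => sd x v ≤ 4 * t) (Ω.filter fun v => sd x v ≤ 4 * t) B t / (t : ℝ) ^ 2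

/-- **SUA** (medium, critical). uses: `CV_stmt SPA_stmt`. As SUM (`Pool/Agent/helper96/TWO/SUM.lean`), CV for `S = A ∪ B β`. First alternative: probability `≤ #(A.filter (sd v₀ · ≤ 200)) + ∑_(v ∈ Ω, sd v₀ v ≤ 200) Pr {v ∈ B β}`, sum over `v₀`: `≤ 401² (#A + ∑_Ω Pr {v ∈ B β})`. Second: for fixed `s, k, p, q` the sum over `v₀` is
`≤ C (2 · 4 t + 1)² wgt A Ω B t / t² ≤ 81 C wgt A Ω B t`, `t = 2 ^ s ≤ n`, `log (t + 2) ≤ log (2 n) ≤ 2 log n` for `n ≥ 2`. -/
def SUA_stmt : Prop := ∃ C : ℝ, 0 < C ∧ ∀ (n : ℕ) (A Ω : Finset V) (B : (V → Bool) → Finset V), 2 ≤ n → A ⊆ (univ : Finset (Fin n × Fin n)).image phi → Ω ⊆ (univ : Finset (Fin n × Fin n)).image phi → Two A Ω B →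
  ∑ v₀ ∈ (univ : Finset (Fin n × Fin n)).image phi, Pr {β | BAD (col β) (A ∪ B β) v₀} ≤
    C * Real.log n * (#A * Real.log n + ∑ v ∈ Ω, Pr {β | v ∈ B β})

/-- **FN3** (helper48 writes it). uses: `REA_stmt REB_stmt BR1_stmt BR2_stmt SUA_stmt`. -/
def FN3_stmt : Prop := ∃ c : ℝ, 0 < c ∧ ∀ n : ℕ, 2 ≤ n → ∀ (A : Finset (Fin n × Fin n)) (B C : (Fin n × Fin n → Bool) → Finset (Fin n × Fin n)),
  (∀ x y : Fin n × Fin n → Bool, (∀ p ∈ A, x p = y p) → B x = B y) →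
  (∀ x y : Fin n × Fin n → Bool, (∀ p ∈ A ∪ B x, x p = y p) → C x = C y) →
  (∀ x y : Fin n × Fin n → Bool, (∀ p ∈ A ∪ B x ∪ C x, x p = y p) → (Crossing n x ↔ Crossing n y)) →
  c * (n : ℝ) ^ 2 / Real.log n ^ 2 ≤ (∑ x : Fin n × Fin n → Bool, (#(A ∪ B x ∪ C x) : ℝ)) / 2 ^ (n * n)

end TP.TW
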