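import Pool.Agent.helper48.TH.Spec2
import Pool.Agent.helper25.EN.Spec

/-!
# Project TH, third file: from the entropy theorem `EN.ENT_stmt` to algorithms with any fixed number of rounds (helper48)

Rules as in `Pool/Agent/helper48/TH/Spec.lean` (import this file instead).
-/

set_option autoImplicit false

namespace TP.TW

open DP MeasureTheory Finset

/-- `S i β` = the sites seen in the first `i` rounds, in the set `Ω` of left sites of bricks -/
def RV (Ω : Finset V) (S : ℕ → (V → Bool) → Finset V) : Prop :=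
  (∀ v ∈ Ω, br v = v) ∧ (∀ β, S 0 β = ∅) ∧ ∀ (i : ℕ) (β : V → Bool), S i β ⊆ S (i + 1) β ∧ S i β ⊆ Ω ∧
    ∀ β' : V → Bool, (∀ v ∈ S i β, β' v = β v) → S (i + 1) β' = S (i + 1) β

/-- **DRR** (medium-long, critical; three provers). uses: `EN.ENT_stmt PRN_stmt SHP_stmt`. `K` = the constant of ENT. RS: `S (j+1)` depends only on the coins in `Ω` (`S j β ⊆ Ω`). DEC: `Pr E = 0`: both sides 0 (monotone). Otherwise `Ω' = insert z (Λ ∪ ⋃ (Ω + τ))` (`τ ∈ T`), `ε : Fin m → V` injective with range `Ω'`,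
`ext x v = x u` if `v = ε u`, else `false`; `S' τ i x = {u | ε u - τ ∈ S (min i (j+1)) (fun v => ext x (v + τ))}`; `Rounds (S' τ)`: if `y = x` on `S' τ i x` then `ext y (v + τ) = ext x (v + τ)` for `v ∈ S (min i (j+1)) ..` (such `v` is in `Ω`, so `v + τ ∈ Ω'`); for `i ≥ j + 1` the set is constant in `i` and
`S (j+1)` is the same because `S j ⊆ S (j+1)`. ENT with `Λ' = {u | ε u ∈ Λ}`, `z' = ε⁻¹ z`, `N = ∑_(v ∈ U) Pr {v ∈ S (j+1) β}`, `Q x = 1/#{x | ext x ∈ E}` on `{x | ext x ∈ E}`, `0` elsewhere, `L = log (1/Pr E)` (`#{..} = 2^m Pr E` by PRN, `CD E Λ`). Hypothesis of ENT: the sum over `τ` is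
`∑_τ Pr {β | ε v - τ ∈ S (min i (j+1)) (fun u => β (u + τ))}` (PRN; the set depends only on the coins in `Ω`) `= ∑_τ Pr {β | ε v - τ ∈ S (min i (j+1)) β}` (SHP) `≤ ∑_(u ∈ U) Pr {u ∈ S (j+1) β}` (monotone in `i`, `τ ↦ ε v - τ` injective into `U`). Conclusion for `z'`: the left side times `Pr E` is the left side of DEC (PRN);
`0 ≤ log (#Λ' + 3) ≤ log (#T + #Λ + 3)`. -/
def DRR_stmt : Prop := ∀ j : ℕ, ∃ K : ℝ, 0 < K ∧ ∀ (Ω : Finset V) (S : ℕ → (V → Bool) → Finset V), RV Ω S →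
  RS (S (j + 1)) Ω (fun v => Pr {β | v ∈ S (j + 1) β}) j K

/-- **FNL** (short-medium, critical). uses: `REA_stmt REB_stmt BR1_stmt BR2_stmt`. Import also `Pool.Agent.helper25.TWO.FIN` and use its lemma `rel_of_not_bad` with `A = S x`, `x = fun q => β (phi q)`: if `p ∉ S x ∪ C x` and `¬ BAD (col β) ((S x).image phi) (phi p)`, there are `y, y'` with `y = x` on `S x`, `y' = y` off `p`, `Crossing n y`, `¬ Crossing n y'`;
then `S y = S x`, `C y = C x`, so `y, y'` agree on `S y ∪ C y`, a contradiction. So `1 ≤ Pr {β | p ∈ S x ∪ C x} + Pr {β | BAD ..}` for every `p` (`measureReal_union_le`); sum over `p`: BR2 and exchange of the sums give the average of `#(S x ∪ C x)`; `phi` is injective (`phi_inj`). -/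
def FNL_stmt : Prop := ∀ (n : ℕ) (S C : (Fin n × Fin n → Bool) → Finset (Fin n × Fin n)), 1 ≤ n →
  (∀ x y : Fin n × Fin n → Bool, (∀ p ∈ S x, x p = y p) → S y = S x ∧ C y = C x) →
  (∀ x y : Fin n × Fin n → Bool, (∀ p ∈ S x ∪ C x, x p = y p) → (Crossing n x ↔ Crossing n y)) →
  (n : ℝ) ^ 2 ≤ (∑ x : Fin n × Fin n → Bool, (#(S x ∪ C x) : ℝ)) / 2 ^ (n * n) +
    ∑ v₀ ∈ (univ : Finset (Fin n × Fin n)).image phi, Pr {β | BAD (col β) ((S fun q => β (phi q)).image phi) v₀}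

/-- **FN3** (short-medium). Row name `FN3`: `theorem FN3 (h1 : FNL_stmt) (h2 : SUA_stmt) (h3 : BR2_stmt) : FN3_stmt`. FNL with `S x = A ∪ B x`; SUA with `A.image phi`, `Ω = univ.image phi`, `B β = (B (fun q => β (phi q))).image phi` (`Finset.image_union`); `∑_v Pr {v ∈ B β}` = the average of `#(B x)` (BR2). With `a` = the average of `#(A ∪ B x ∪ C x)`:
`n² ≤ a + C log n (#A log n + a) ≤ (4 + 3 C) (log n)² a` (`log n ≥ 1/2`). -/
def FN3_again : Prop := FN3_stmt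

/-- **FNR** (medium, critical; two provers). uses: `FNL_stmt SUG_stmt DRR_stmt BR2_stmt`. `r + 2` rounds; `S i x` = the sites seen in the first `i` rounds. FNL with `S = S (r+1)`, `C = S (r+2)` (agreement on `S (r+1) x` implies agreement on `S i x` for `i ≤ r + 1`, so all `S i y = S i x`, `i ≤ r + 2`). `SV i β = (S i (fun q => β (phi q))).image phi`, `Ω = univ.image phi`,
`RV Ω SV` (`phi_br` in `helper25/TWO/FIN.lean`: `br (phi p) = phi p`). DRR with `j = r`, SUG with `R = r`: `∑ Pr BAD ≤ C K (log n)^(r+1) ∑_(v ∈ Ω) Pr {v ∈ SV (r+1) β}`, the last sum is the average of `#(S (r+1) x) ≤ a`, `a` = the average of `#(S (r+2) x)` (BR2, exchange). So `n² ≤ a + C K (log n)^(r+1) a ≤ (2^(r+1) + C K) (log n)^(r+1) a` (`log n ≥ 1/2`). -/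
def FNR_stmt : Prop := ∀ r : ℕ, ∃ c : ℝ, 0 < c ∧ ∀ n : ℕ, 2 ≤ n → ∀ S : ℕ → (Fin n × Fin n → Bool) → Finset (Fin n × Fin n), (∀ x, S 0 x = ∅) → (∀ i x, S i x ⊆ S (i + 1) x) →
  (∀ (i : ℕ) (x y : Fin n × Fin n → Bool), (∀ p ∈ S i x, x p = y p) → S (i + 1) y = S (i + 1) x) →
  (∀ x y : Fin n × Fin n → Bool, (∀ p ∈ S (r + 2) x, x p = y p) → (Crossing n x ↔ Crossing n y)) →
  c * (n : ℝ) ^ 2 / Real.log n ^ (r + 1) ≤ (∑ x : Fin n × Fin n → Bool, (#(S (r + 2) x) : ℝ)) / 2 ^ (n * n)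

end TP.TW
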